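import Pool.Agent.helper21.OE.SpecA

/-!
# Project OE, row EUC: Euclidean division in the five norm-Euclidean rings
-/

set_option autoImplicit false

namespace Pool.Agent.OE

private theorem EUC_norm (d t : ℤ) (z : Oz d t) :
    QuadraticAlgebra.norm z = z.re * z.re + t * z.re * z.im + d * z.im * z.im := by
  rw [QuadraticAlgebra.norm_def]
  ring

private theorem EUC_disc (d t : ℤ) (h : IsEuc d t) : 3 ≤ 4 * d - t * t ∧ 4 * d - t * t ≤ 11 := by
  rcases h with ⟨rfl, rfl | rfl⟩ | ⟨rfl, rfl | rfl | rfl⟩ <;> norm_num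

private theorem EUC_four (d t : ℤ) (z : Oz d t) :
    4 * QuadraticAlgebra.norm z = (2 * z.re + t * z.im) ^ 2 + (4 * d - t * t) * z.im ^ 2 := by
  rw [EUC_norm]
  ring

private theorem EUC_nonneg (d t : ℤ) (h : IsEuc d t) (z : Oz d t) :
    0 ≤ QuadraticAlgebra.norm z := by
  have h1 := EUC_four d t z
  have h2 := EUC_disc d t h
  have h3 : 0 ≤ (4 * d - t * t) * z.im ^ 2 := mul_nonneg (by linarith [h2.1]) (sq_nonneg _)
  have h4 := sq_nonneg (2 * z.re + t * z.im)
  linarith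

private theorem EUC_pos (d t : ℤ) (h : IsEuc d t) (z : Oz d t) (hz : z ≠ 0) :
    0 < QuadraticAlgebra.norm z := by
  rcases (EUC_nonneg d t h z).lt_or_eq with h0 | h0
  · exact h0
  · exfalso
    apply hz
    have h1 := EUC_four d t z
    have h2 := EUC_disc d t h
    have h3 : 0 ≤ z.im ^ 2 := sq_nonneg _
    have h4 := sq_nonneg (2 * z.re + t * z.im)
    rw [← h0] at h1
    have h5 : z.im ^ 2 = 0 := by nlinarith
    have h6 : z.im = 0 := pow_eq_zero_iff (by norm_num) |>.1 h5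
    rw [h6] at h1
    have h7 : z.re ^ 2 = 0 := by nlinarith
    have h8 : z.re = 0 := pow_eq_zero_iff (by norm_num) |>.1 h7
    exact QuadraticAlgebra.ext h8 h6

private theorem EUC_round (N s : ℤ) (hN : 0 < N) :
    ∃ h : ℤ, -N ≤ 2 * (s - h * N) ∧ 2 * (s - h * N) ≤ N := by
  refine ⟨(2 * s + N) / (2 * N), ?_⟩
  have h1 := Int.emod_nonneg (2 * s + N) (by omega : (2 * N) ≠ 0)
  have h2 := Int.emod_lt_of_pos (2 * s + N) (by omega : 0 < 2 * N)
  have h3 := Int.mul_ediv_add_emod (2 * s + N) (2 * N)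
  constructor <;> nlinarith

theorem EUC : EUC_stmt := by
  intro d t hE p q hq
  have hN := EUC_pos d t hE q hq
  have hD := EUC_disc d t hE
  set N := QuadraticAlgebra.norm q with hNdef
  obtain ⟨h2, a2, b2⟩ := EUC_round N (p * star q).im hN
  obtain ⟨h1, a1, b1⟩ := EUC_round (2 * N) (2 * (p * star q).re + t * ((p * star q).im - h2 * N))
    (by linarith)
  refine ⟨⟨h1, h2⟩, ?_, EUC_nonneg d t hE _⟩
  have e1 : (p - ⟨h1, h2⟩ * q) * star q = p * star q - ⟨h1, h2⟩ * algebraMap ℤ (Oz d t) N := by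
    rw [hNdef, QuadraticAlgebra.algebraMap_norm_eq_mul_star]
    ring
  have e2 : QuadraticAlgebra.norm (p - ⟨h1, h2⟩ * q) * N =
      QuadraticAlgebra.norm (p * star q - ⟨h1, h2⟩ * algebraMap ℤ (Oz d t) N) := by
    rw [← e1, map_mul, QuadraticAlgebra.norm_star]
  have r1 : (p * star q - (⟨h1, h2⟩ : Oz d t) * algebraMap ℤ (Oz d t) N).re =
      (p * star q).re - h1 * N := by
    simp
  have r2 : (p * star q - (⟨h1, h2⟩ : Oz d t) * algebraMap ℤ (Oz d t) N).im =
      (p * star q).im - h2 * N := by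
    simp
  have e3 := EUC_four d t (p * star q - (⟨h1, h2⟩ : Oz d t) * algebraMap ℤ (Oz d t) N)
  rw [← e2, r1, r2] at e3
  set u := (p * star q).re - h1 * N with hu
  set v := (p * star q).im - h2 * N with hv
  have c1 : (2 * u + t * v) ^ 2 ≤ N ^ 2 := by
    have k1 : -N ≤ 2 * u + t * v := by rw [hu]; linarith
    have k2 : 2 * u + t * v ≤ N := by rw [hu]; linarith
    nlinarith
  have c2 : 4 * v ^ 2 ≤ N ^ 2 := by nlinarith
  have c3 : (4 * d - t * t) * (4 * v ^ 2) ≤ 11 * N ^ 2 := by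
    have h0 : 0 ≤ 4 * v ^ 2 := by positivity
    calc (4 * d - t * t) * (4 * v ^ 2) ≤ 11 * (4 * v ^ 2) := by
          apply mul_le_mul_of_nonneg_right hD.2 h0
      _ ≤ 11 * N ^ 2 := by linarith
  have hlt : QuadraticAlgebra.norm (p - ⟨h1, h2⟩ * q) * N < N * N := by
    have hNN : 0 < N * N := mul_pos hN hN
    nlinarith
  exact lt_of_mul_lt_mul_right hlt hN.le

end Pool.Agent.OE
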