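import Pool.Agent.helper21.OE.SpecA

/-!
# MP_2e0e07_nt, row oe:FRE
-/

set_option autoImplicit false

namespace Pool.Agent.OE

open MvPolynomial Matrix

theorem FRE_mul {d t : ℤ} (ℓ : ℕ) (a b : GO d t) (ha : ((ℓ : ℕ) : Oz d t) ∣ a.val 0 1)
    (hb : ((ℓ : ℕ) : Oz d t) ∣ b.val 0 1) : ((ℓ : ℕ) : Oz d t) ∣ (a * b).val 0 1 := by
  have h : (a * b).val 0 1 = a.val 0 0 * b.val 0 1 + a.val 0 1 * b.val 1 1 := by
    rw [Units.val_mul, Matrix.mul_apply, Fin.sum_univ_two]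
  rw [h]
  exact dvd_add (Dvd.dvd.mul_left hb _) (Dvd.dvd.mul_right ha _)

theorem FRE_inv {d t : ℤ} (ℓ : ℕ) (a : GO d t) (ha : ((ℓ : ℕ) : Oz d t) ∣ a.val 0 1) :
    ((ℓ : ℕ) : Oz d t) ∣ (a⁻¹).val 0 1 := by
  have h : (a⁻¹).val 0 1 = Ring.inverse a.val.det * (-(a.val 0 1)) := by
    rw [Matrix.coe_units_inv, Matrix.inv_def, Matrix.adjugate_fin_two]
    rfl
  rw [h]
  exact Dvd.dvd.mul_left ((dvd_neg).2 ha) _

/-- the equivalence relation -/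
def FRE_st (d t : ℤ) (ℓ : ℕ) : Setoid (GO d t) where
  r γ δ := ((ℓ : ℕ) : Oz d t) ∣ (γ * δ⁻¹).val 0 1
  iseqv := by
    refine ⟨fun γ => ?_, fun {γ δ} h => ?_, fun {γ δ ε} h h' => ?_⟩
    · have e : (γ * γ⁻¹).val 0 1 = 0 := by
        rw [mul_inv_cancel]
        simp
      rw [e]
      exact dvd_zero _
    · have e : δ * γ⁻¹ = (γ * δ⁻¹)⁻¹ := by group
      rw [e]
      exact FRE_inv ℓ _ h
    · have e : γ * ε⁻¹ = (γ * δ⁻¹) * (δ * ε⁻¹) := by group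
      rw [e]
      exact FRE_mul ℓ _ _ h h'

/-- the matrix `(0 -1; 1 0)` -/
def FRE_w (d t : ℤ) : GO d t where
  val := !![0, -1; 1, 0]
  inv := !![0, 1; -1, 0]
  val_inv := by
    rw [Matrix.mul_fin_two]
    simp [Matrix.one_fin_two]
  inv_val := by
    rw [Matrix.mul_fin_two]
    simp [Matrix.one_fin_two]

theorem FRE_conj {d t : ℤ} (h : GO d t) :
    (FRE_w d t * h * (FRE_w d t)⁻¹).val 0 1 = -(h.val 1 0) := by
  have e : (FRE_w d t * h * (FRE_w d t)⁻¹).val =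
      (!![0, -1; 1, 0] : Mat d t) * h.val * (!![0, 1; -1, 0] : Mat d t) := rfl
  rw [e, Matrix.eta_fin_two h.val, Matrix.mul_fin_two, Matrix.mul_fin_two]
  simp

theorem FRE (hFIX : FIX_stmt) : FRE_stmt := by
  classical
  intro d t ℓ hℓ
  obtain ⟨F0, hF0⟩ := hFIX d t ℓ hℓ
  let st := FRE_st d t ℓ
  refine ⟨F0.image (fun δ => (Quotient.mk st (FRE_w d t * δ)).out), fun γ => ?_⟩
  obtain ⟨δ, hδ, h, hh, hγ⟩ := hF0 ((FRE_w d t)⁻¹ * γ)
  have h1 : st.r γ (FRE_w d t * δ) := by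
    change ((ℓ : ℕ) : Oz d t) ∣ (γ * (FRE_w d t * δ)⁻¹).val 0 1
    have e : γ * (FRE_w d t * δ)⁻¹ = FRE_w d t * h * (FRE_w d t)⁻¹ := by
      have e1 : γ = FRE_w d t * (h * δ) := by
        rw [← hγ]
        group
      rw [e1]
      group
    rw [e, FRE_conj]
    exact (dvd_neg).2 hh
  have hout : ∀ g : GO d t, st.r g (Quotient.mk st g).out := fun g =>
    st.iseqv.symm (Quotient.exact (Quotient.out_eq (Quotient.mk st g)))
  refine ⟨(Quotient.mk st (FRE_w d t * δ)).out, ⟨Finset.mem_image_of_mem _ hδ,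
    st.iseqv.trans h1 (hout _)⟩, ?_⟩
  rintro g ⟨hg, hg2⟩
  obtain ⟨δ', _, rfl⟩ := Finset.mem_image.1 hg
  have h2 : st.r (Quotient.mk st (FRE_w d t * δ')).out (FRE_w d t * δ) :=
    st.iseqv.trans (st.iseqv.symm hg2) h1
  have h3 : Quotient.mk st (Quotient.mk st (FRE_w d t * δ')).out =
      Quotient.mk st (FRE_w d t * δ) := Quotient.sound h2
  rw [Quotient.out_eq] at h3
  rw [h3]

end Pool.Agent.OE
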