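import Pool.Agent.helper21.OE.SpecA

/-!
# MP_2e0e07_nt, row oe:FUD
-/

set_option autoImplicit false

namespace Pool.Agent.OE

open MvPolynomial Matrix

theorem FUD_mul {d t : ℤ} (ℓ : ℕ) (a b : GO d t) (ha : ((ℓ : ℕ) : Oz d t) ∣ a.val 0 1)
    (hb : ((ℓ : ℕ) : Oz d t) ∣ b.val 0 1) : ((ℓ : ℕ) : Oz d t) ∣ (a * b).val 0 1 := by
  have h : (a * b).val 0 1 = a.val 0 0 * b.val 0 1 + a.val 0 1 * b.val 1 1 := by
    rw [Units.val_mul, Matrix.mul_apply, Fin.sum_univ_two]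
  rw [h]
  exact dvd_add (Dvd.dvd.mul_left hb _) (Dvd.dvd.mul_right ha _)

theorem FUD_inv {d t : ℤ} (ℓ : ℕ) (a : GO d t) (ha : ((ℓ : ℕ) : Oz d t) ∣ a.val 0 1) :
    ((ℓ : ℕ) : Oz d t) ∣ (a⁻¹).val 0 1 := by
  have h : (a⁻¹).val 0 1 = Ring.inverse a.val.det * (-(a.val 0 1)) := by
    rw [Matrix.coe_units_inv, Matrix.inv_def, Matrix.adjugate_fin_two]
    rfl
  rw [h]
  exact Dvd.dvd.mul_left ((dvd_neg).2 ha) _

/-- the matrix `(1 x; 0 1)` -/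
def FUD_g {d t : ℤ} (x : Oz d t) : GO d t where
  val := !![1, x; 0, 1]
  inv := !![1, -x; 0, 1]
  val_inv := by
    rw [Matrix.mul_fin_two]
    simp [Matrix.one_fin_two]
  inv_val := by
    rw [Matrix.mul_fin_two]
    simp [Matrix.one_fin_two]

theorem FUD_gg {d t : ℤ} (x y : Oz d t) : (FUD_g x * (FUD_g y)⁻¹).val 0 1 = x - y := by
  have e : (FUD_g x * (FUD_g y)⁻¹).val = (!![1, x; 0, 1] : Mat d t) * (!![1, -y; 0, 1] : Mat d t) :=
    rfl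
  rw [e, Matrix.mul_fin_two]
  simp
  ring

theorem FUD_hg {d t : ℤ} (h : GO d t) (y : Oz d t) :
    (h * (FUD_g y)⁻¹).val 0 1 = h.val 0 1 - h.val 0 0 * y := by
  have e : (h * (FUD_g y)⁻¹).val = h.val * (!![1, -y; 0, 1] : Mat d t) := rfl
  rw [e, Matrix.mul_apply, Fin.sum_univ_two]
  simp
  ring

theorem FUD_ker {d t : ℤ} {κ : Type} [Field κ] (π : Oz d t →+* κ) (ℓ : ℕ) (hℓ : ((ℓ : ℕ) : κ) = 0)
    (z : Oz d t) (hz : ((ℓ : ℕ) : Oz d t) ∣ z) : π z = 0 ∧ π (star z) = 0 := by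
  obtain ⟨c, rfl⟩ := hz
  constructor
  · rw [map_mul, map_natCast, hℓ, zero_mul]
  · rw [star_mul', star_natCast, map_mul, map_natCast, hℓ, zero_mul]

theorem FUD_lin {d t : ℤ} {κ : Type} [Field κ] (π : Oz d t →+* κ) (k : ℕ) (a b : Oz d t) :
    eval ![0, 1, 0, 1] (lin π k a b) = π (a * star a) ^ k := by
  unfold lin
  simp only [map_mul, map_pow, map_sub, eval_C, eval_X, Matrix.cons_val_zero, Matrix.cons_val_one,
    Matrix.cons_val]
  rw [mul_pow]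
  ring

theorem FUD_key (hDTU : DTU_stmt) (hCNJ : CNJ_stmt) (d t : ℤ) (hE : IsEuc d t) (ℓ : ℕ)
    (hp : ℓ.Prime) {κ : Type} [Field κ] (π : Oz d t →+* κ) (hℓ : ((ℓ : ℕ) : κ) = 0) (k : ℕ)
    (ψ : Vec d t → Vec d t → κ) (hψ : IsSc π k (ℓ ^ 1) ψ) (x : Oz d t) (g : GO d t)
    (hg : ((ℓ : ℕ) : Oz d t) ∣ (FUD_g x * g⁻¹).val 0 1) (u v : Vec d t) :
    ψ (!![1, x; 0, ((ℓ : ℕ) : Oz d t)] *ᵥ u) (!![1, x; 0, ((ℓ : ℕ) : Oz d t)] *ᵥ v) =
      ψ (al ℓ g.val *ᵥ u) (al ℓ g.val *ᵥ v) * π (g.val 0 0 * star (g.val 0 0)) ^ k := by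
  obtain ⟨h', h1, h2, h3⟩ := hCNJ d t ℓ hp.ne_zero (FUD_g x * g⁻¹) hg
  obtain ⟨-, -, h4⟩ := hDTU d t hE ℓ hp (FUD_g x * g⁻¹) (Or.inr hg)
  obtain ⟨-, h5⟩ := h4 π hℓ
  have hM : (!![1, x; 0, ((ℓ : ℕ) : Oz d t)] : Mat d t) = h'.val * al ℓ g.val := by
    have e1 : (!![1, x; 0, ((ℓ : ℕ) : Oz d t)] : Mat d t) =
        !![1, 0; 0, ((ℓ : ℕ) : Oz d t)] * (FUD_g x).val := by
      change _ = !![1, 0; 0, ((ℓ : ℕ) : Oz d t)] * (!![1, x; 0, 1] : Mat d t)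
      rw [Matrix.mul_fin_two]
      simp
    have e2 : (FUD_g x).val = (FUD_g x * g⁻¹).val * g.val := by
      rw [← Units.val_mul]
      congr 1
      group
    rw [e1, e2, ← Matrix.mul_assoc, h1, Matrix.mul_assoc]
    rfl
  have h10 : ((ℓ ^ 1 : ℕ) : Oz d t) ∣ h'.val 1 0 := by
    rw [pow_one, h2]
    exact dvd_mul_right _ _
  rw [hM, ← Matrix.mulVec_mulVec, ← Matrix.mulVec_mulVec, hψ.equiv h' _ _ h10, h3, mul_comm]
  congr 2
  -- the entry (0,0)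
  have e3 : (1 : Oz d t) = (FUD_g x * g⁻¹).val 0 0 * g.val 0 0 +
      (FUD_g x * g⁻¹).val 0 1 * g.val 1 0 := by
    have e4 : (FUD_g x).val 0 0 = ((FUD_g x * g⁻¹) * g).val 0 0 := by
      congr 2
      group
    rw [Units.val_mul (FUD_g x * g⁻¹) g, Matrix.mul_apply, Fin.sum_univ_two] at e4
    exact e4
  obtain ⟨k1, k2⟩ := FUD_ker π ℓ hℓ _ hg
  have e5 : 1 = π ((FUD_g x * g⁻¹).val 0 0) * π (g.val 0 0) := by
    have := congrArg π e3
    rw [map_one, map_add, map_mul, map_mul, k1, zero_mul, add_zero] at this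
    exact this
  have e6 : 1 = π (star ((FUD_g x * g⁻¹).val 0 0)) * π (star (g.val 0 0)) := by
    have := congrArg (fun z => π (star z)) e3
    simp only [star_one, star_add, star_mul', map_one, map_add, map_mul] at this
    rw [k2, zero_mul, add_zero] at this
    exact this
  have e7 : π ((FUD_g x * g⁻¹).val 0 0 * star ((FUD_g x * g⁻¹).val 0 0)) *
      π (g.val 0 0 * star (g.val 0 0)) = 1 := by
    rw [map_mul, map_mul]
    calc _ = (π ((FUD_g x * g⁻¹).val 0 0) * π (g.val 0 0)) *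
        (π (star ((FUD_g x * g⁻¹).val 0 0)) * π (star (g.val 0 0))) := by ring
      _ = 1 := by rw [← e5, ← e6, one_mul]
  have hne : π ((FUD_g x * g⁻¹).val 0 0 * star ((FUD_g x * g⁻¹).val 0 0)) ≠ 0 := by
    intro h0
    rw [h0, zero_mul] at e7
    exact zero_ne_one e7
  exact mul_left_cancel₀ hne (h5.trans e7.symm)

theorem FUD (hREP : REP_stmt) (hREQ : REQ_stmt) (hDTU : DTU_stmt) (hCNJ : CNJ_stmt)
    (hNRF : NRF_stmt) : FUD_stmt := by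
  classical
  intro d t hE ℓ hp F hF κ _ π hℓ k hk ψ hψ
  funext u v
  choose G hG hGu using fun x : Fin ℓ × Fin ℓ => hF (FUD_g (rep d t x))
  have e1 : evS (bT π ℓ F k ψ) u v = ∑ g ∈ F, ψ (al ℓ g.val *ᵥ u) (al ℓ g.val *ᵥ v) *
      π (g.val 0 0 * star (g.val 0 0)) ^ k := by
    unfold evS bT
    rw [map_sum]
    refine Finset.sum_congr rfl fun g _ => ?_
    rw [map_mul, eval_C, FUD_lin]
  have e2 : uS ℓ ψ u v = ∑ x : Fin ℓ × Fin ℓ, ψ (al ℓ (G x).val *ᵥ u) (al ℓ (G x).val *ᵥ v) *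
      π ((G x).val 0 0 * star ((G x).val 0 0)) ^ k := by
    unfold uS
    refine Finset.sum_congr rfl fun x _ => ?_
    exact FUD_key hDTU hCNJ d t hE ℓ hp π hℓ k ψ hψ (rep d t x) (G x) (hG x).2 u v
  have hinj : ∀ x y, G x = G y → x = y := by
    intro x y hxy
    apply (hREP d t ℓ hp).2
    rw [← FUD_gg]
    have h1 := (hG x).2
    have h2 := (hG y).2
    rw [← hxy] at h2
    have e : FUD_g (rep d t x) * (FUD_g (rep d t y))⁻¹ =
        (FUD_g (rep d t x) * (G x)⁻¹) * (FUD_g (rep d t y) * (G x)⁻¹)⁻¹ := by group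
    rw [e]
    exact FUD_mul ℓ _ _ h1 (FUD_inv ℓ _ h2)
  rw [e1, e2, ← Finset.sum_image (s := Finset.univ) (g := G)
    (f := fun g : GO d t => ψ (al ℓ g.val *ᵥ u) (al ℓ g.val *ᵥ v) *
      π (g.val 0 0 * star (g.val 0 0)) ^ k) (fun x _ y _ h => hinj x y h)]
  symm
  refine Finset.sum_subset ?_ ?_
  · intro g hg
    obtain ⟨x, -, rfl⟩ := Finset.mem_image.1 hg
    exact (hG x).1
  · intro g hg hg'
    have hN : ((ℓ : ℕ) : ℤ) ∣ (g.val 0 0).norm := by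
      by_contra hN
      apply hg'
      obtain ⟨p', hp'⟩ := (hREQ d t ℓ hp (g.val 0 0)).1 hN
      obtain ⟨x, hx⟩ := (hREP d t ℓ hp).1 (g.val 0 1 * p')
      refine Finset.mem_image.2 ⟨x, Finset.mem_univ _, ?_⟩
      symm
      apply hGu x g ⟨hg, ?_⟩
      have e : FUD_g (rep d t x) * g⁻¹ = (g * (FUD_g (rep d t x))⁻¹)⁻¹ := by group
      rw [e]
      apply FUD_inv
      rw [FUD_hg]
      have e' : g.val 0 1 - g.val 0 0 * rep d t x =
          g.val 0 0 * (g.val 0 1 * p' - rep d t x) - g.val 0 1 * (g.val 0 0 * p' - 1) := by ring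
      rw [e']
      exact dvd_sub (Dvd.dvd.mul_left hx _) (Dvd.dvd.mul_left hp' _)
    rw [(hNRF d t ℓ hp π hℓ (g.val 0 0)).1 hN, zero_pow (by omega), mul_zero]

end Pool.Agent.OE
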