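import Pool.Agent.helper21.OE.SpecA

/-! # OE row USD: the operator lowers the level of scalar symbols -/

set_option autoImplicit false

namespace Pool.Agent.OE

open MvPolynomial Matrix

theorem USD_ne (d t : ℤ) (ℓ : ℕ) (hℓ : ℓ ≠ 0) (x : Oz d t) (u : Vec d t) (hu : u ≠ 0) :
    (!![1, x; 0, ((ℓ : ℕ) : Oz d t)] : Mat d t) *ᵥ u ≠ 0 := by
  intro h
  apply hu
  have h1 := congrFun h 1
  have h0 := congrFun h 0
  simp only [Matrix.mulVec, dotProduct, Fin.sum_univ_two, Matrix.of_apply, Matrix.cons_val', Matrix.cons_val_zero,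
    Matrix.cons_val_one, Matrix.cons_val_fin_one, zero_mul, zero_add, Pi.zero_apply, one_mul] at h1 h0
  have h2 : u 1 = 0 := by
    have hz : (ℓ : ℤ) ≠ 0 := by exact_mod_cast hℓ
    have e1 := congrArg QuadraticAlgebra.re h1
    have e2 := congrArg QuadraticAlgebra.im h1
    simp only [QuadraticAlgebra.re_mul, QuadraticAlgebra.im_mul, QuadraticAlgebra.re_natCast,
      QuadraticAlgebra.im_natCast, QuadraticAlgebra.re_zero, QuadraticAlgebra.im_zero, mul_zero, zero_mul, add_zero] at e1 e2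
    ext
    · rcases mul_eq_zero.1 e1 with h | h
      · exact absurd h hz
      · exact h
    · rcases mul_eq_zero.1 e2 with h | h
      · exact absurd h hz
      · exact h
  rw [h2, mul_zero, add_zero] at h0
  funext i
  fin_cases i
  · exact h0
  · exact h2

theorem USD (hPRV : PRV_stmt) (hCNJ : CNJ_stmt) : USD_stmt := by
  intro d t ht ℓ hℓ κ _ π hπ r j hr ψ hψ
  have hℓ0 : ℓ ≠ 0 := hℓ.ne_zero
  refine ⟨⟨?_, ?_, ?_, ?_, ?_⟩, ?_⟩
  · intro v
    unfold uS
    refine Finset.sum_eq_zero fun x _ => ?_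
    rw [Matrix.mulVec_zero, hψ.cus.zero_left]
  · intro u
    unfold uS
    refine Finset.sum_eq_zero fun x _ => ?_
    rw [Matrix.mulVec_zero, hψ.cus.zero_right]
  · intro u v w hu hv hw
    unfold uS
    rw [← Finset.sum_add_distrib]
    refine Finset.sum_congr rfl fun x _ => ?_
    exact hψ.cus.add _ _ _ (USD_ne d t ℓ hℓ0 _ u hu) (USD_ne d t ℓ hℓ0 _ v hv) (USD_ne d t ℓ hℓ0 _ w hw)
  · intro c u v hc
    unfold uS
    refine Finset.sum_congr rfl fun x _ => ?_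
    rw [Matrix.mulVec_smul, hψ.cus.smul_left c _ _ hc]
  · intro c u v hc
    unfold uS
    refine Finset.sum_congr rfl fun x _ => ?_
    rw [Matrix.mulVec_smul, hψ.cus.smul_right c _ _ hc]
  · intro γ u v hγ
    have hdvd : ((ℓ : ℕ) : Oz d t) ∣ γ.val 1 0 := by
      refine dvd_trans ?_ hγ
      rw [Nat.cast_pow]
      exact dvd_pow_self _ (by omega)
    obtain ⟨σ, hσ⟩ := hPRV d t ht ℓ hℓ γ hdvd
    have hπ0 : π (γ.val 1 0) = 0 ∧ π (star (γ.val 1 0)) = 0 := by
      obtain ⟨z, hz⟩ := hdvd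
      have h0 : π ((ℓ : ℕ) : Oz d t) = 0 := by rw [map_natCast, hπ]
      constructor
      · rw [hz, map_mul, h0, zero_mul]
      · rw [hz, star_mul', star_natCast, map_mul, h0, zero_mul]
    unfold uS
    rw [Finset.mul_sum, ← Equiv.sum_comp σ (fun x => π (γ.val 1 1 * star (γ.val 1 1)) ^ j *
      ψ (!![1, rep d t x; 0, ((ℓ : ℕ) : Oz d t)] *ᵥ u) (!![1, rep d t x; 0, ((ℓ : ℕ) : Oz d t)] *ᵥ v))]
    refine Finset.sum_congr rfl fun x _ => ?_
    obtain ⟨h, hd, h10, h11, hmul⟩ := hσ x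
    obtain ⟨h', hc1, hc2, hc3⟩ := hCNJ d t ℓ hℓ0 h hd
    have hfac : ∀ y : Oz d t, (!![1, y; 0, ((ℓ : ℕ) : Oz d t)] : Mat d t) =
        !![1, 0; 0, ((ℓ : ℕ) : Oz d t)] * !![1, y; 0, 1] := by
      intro y
      rw [Matrix.mul_fin_two]
      simp
    have hM : (!![1, rep d t x; 0, ((ℓ : ℕ) : Oz d t)] : Mat d t) * γ.val =
        h'.val * !![1, rep d t (σ x); 0, ((ℓ : ℕ) : Oz d t)] := by
      rw [hfac (rep d t x), hfac (rep d t (σ x)), Matrix.mul_assoc, hmul, ← Matrix.mul_assoc, hc1, Matrix.mul_assoc]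
    have hlev : ((ℓ ^ (r + 1) : ℕ) : Oz d t) ∣ h'.val 1 0 := by
      rw [hc2, h10, pow_succ, Nat.cast_mul, mul_comm]
      exact mul_dvd_mul_left _ hγ
    have hval : π (h'.val 1 1 * star (h'.val 1 1)) = π (γ.val 1 1 * star (γ.val 1 1)) := by
      rw [hc3, h11, star_sub, star_mul', map_mul, map_mul, map_sub, map_sub, map_mul, map_mul, hπ0.1, hπ0.2,
        zero_mul, zero_mul, sub_zero, sub_zero]
    rw [Matrix.mulVec_mulVec, Matrix.mulVec_mulVec, hM, ← Matrix.mulVec_mulVec, ← Matrix.mulVec_mulVec,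
      hψ.equiv h' _ _ hlev, hval]

end Pool.Agent.OE
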